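import Mathlib

set_option autoImplicit false

namespace Pool.Agent.Helper8.P1

theorem par (x : ℤ) : (∃ k, x = 2 * k) ∨ (∃ k X, x = 2 * k + 1 ∧ x ^ 2 = 8 * X + 1) := by
  rcases Int.even_or_odd' x with ⟨k, hk | hk⟩
  · exact Or.inl ⟨k, hk⟩
  · right
    obtain ⟨X, hX⟩ := Int.even_mul_succ_self k
    refine ⟨k, X, hk, ?_⟩
    rw [hk]
    linear_combination 4 * hX

/-- `d = 3 e + 1` -/
theorem arith31 (e a1 a2 b1 b2 n : ℤ)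
    (h1 : a1 ^ 2 + b1 ^ 2 + (3 * e + 1) * (a2 ^ 2 + b2 ^ 2) = (3 * n) ^ 2)
    (h2 : a1 * a2 + b1 * b2 = 0) : 3 ∣ a1 ∧ 3 ∣ a2 ∧ 3 ∣ b1 ∧ 3 ∣ b2 := by
  have key : ∀ x y z w : ZMod 3, x ^ 2 + z ^ 2 + (y ^ 2 + w ^ 2) = 0 → x * y + z * w = 0 →
      x = 0 ∧ y = 0 ∧ z = 0 ∧ w = 0 := by decide
  have h3 : ((3 : ℤ) : ZMod 3) = 0 := by decide
  have e1 := congrArg (Int.cast : ℤ → ZMod 3) h1
  have e2 := congrArg (Int.cast : ℤ → ZMod 3) h2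
  push_cast at e1 e2 h3
  rw [h3] at e1
  have := key a1 a2 b1 b2 (by linear_combination e1) e2
  refine ⟨?_, ?_, ?_, ?_⟩
  · exact (ZMod.intCast_zmod_eq_zero_iff_dvd a1 3).1 this.1
  · exact (ZMod.intCast_zmod_eq_zero_iff_dvd a2 3).1 this.2.1
  · exact (ZMod.intCast_zmod_eq_zero_iff_dvd b1 3).1 this.2.2.1
  · exact (ZMod.intCast_zmod_eq_zero_iff_dvd b2 3).1 this.2.2.2

theorem sum3 (x y : ℤ) (h : 3 ∣ x ^ 2 + y ^ 2) : 3 ∣ x ∧ 3 ∣ y := by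
  have key : ∀ x y : ZMod 3, x ^ 2 + y ^ 2 = 0 → x = 0 ∧ y = 0 := by decide
  have e1 : ((x ^ 2 + y ^ 2 : ℤ) : ZMod 3) = 0 :=
    (ZMod.intCast_zmod_eq_zero_iff_dvd _ 3).2 h
  push_cast at e1
  have := key x y e1
  exact ⟨(ZMod.intCast_zmod_eq_zero_iff_dvd x 3).1 this.1,
    (ZMod.intCast_zmod_eq_zero_iff_dvd y 3).1 this.2⟩

/-- `d = 3 e`, `3 ∤ e` -/
theorem arith30 (e a1 a2 b1 b2 n : ℤ) (he : ¬ 3 ∣ e)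
    (h1 : a1 ^ 2 + b1 ^ 2 + (3 * e) * (a2 ^ 2 + b2 ^ 2) = (3 * n) ^ 2) :
    3 ∣ a1 ∧ 3 ∣ a2 ∧ 3 ∣ b1 ∧ 3 ∣ b2 := by
  have h3 : (3 : ℤ) ∣ a1 ^ 2 + b1 ^ 2 := ⟨3 * n ^ 2 - e * (a2 ^ 2 + b2 ^ 2), by linear_combination h1⟩
  obtain ⟨ha, hb⟩ := sum3 _ _ h3
  obtain ⟨x, hx⟩ := id ha
  obtain ⟨y, hy⟩ := id hb
  have h4 : (3 : ℤ) ∣ e * (a2 ^ 2 + b2 ^ 2) := by
    refine ⟨n ^ 2 - x ^ 2 - y ^ 2, ?_⟩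
    rw [hx, hy] at h1
    linarith [h1]
  have hp : Prime (3 : ℤ) := Int.prime_three
  have h5 : (3 : ℤ) ∣ a2 ^ 2 + b2 ^ 2 := (hp.dvd_or_dvd h4).resolve_left he
  obtain ⟨hc, hd⟩ := sum3 _ _ h5
  exact ⟨ha, hc, hb, hd⟩

/-- `d = 4 e + 1` -/
theorem arith21 (e a1 a2 b1 b2 n : ℤ)
    (h1 : a1 ^ 2 + b1 ^ 2 + (4 * e + 1) * (a2 ^ 2 + b2 ^ 2) = (2 * n) ^ 2) :
    (2 ∣ a1 ∧ 2 ∣ a2 ∧ 2 ∣ b1 ∧ 2 ∣ b2) ∨ (¬ 2 ∣ n ∧ 2 ∣ a1 - a2 ∧ 2 ∣ b1 - b2) := by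
  rcases par a1 with ⟨k1, hk1⟩ | ⟨k1, X1, hk1, hX1⟩ <;>
  rcases par a2 with ⟨k2, hk2⟩ | ⟨k2, X2, hk2, hX2⟩ <;>
  rcases par b1 with ⟨k3, hk3⟩ | ⟨k3, X3, hk3, hX3⟩ <;>
  rcases par b2 with ⟨k4, hk4⟩ | ⟨k4, X4, hk4, hX4⟩
  · left; subst hk1; subst hk2; subst hk3; subst hk4
    exact ⟨⟨k1, rfl⟩, ⟨k2, rfl⟩, ⟨k3, rfl⟩, ⟨k4, rfl⟩⟩
  all_goals first
    | (exfalso
       have q1 : (4 * e + 1) * (a2 ^ 2 + b2 ^ 2) = 4 * (e * (a2 ^ 2 + b2 ^ 2)) + a2 ^ 2 + b2 ^ 2 := by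
         ring
       have q2 : (2 * n) ^ 2 = 4 * n ^ 2 := by ring
       rw [q1, q2] at h1
       generalize e * (a2 ^ 2 + b2 ^ 2) = E at h1
       generalize n ^ 2 = M at h1
       have r1 : a1 ^ 2 % 4 = (a1 % 2) := by
         rcases Int.even_or_odd' a1 with ⟨t, ht | ht⟩ <;> rw [ht] <;> ring_nf <;> omega
       have r2 : a2 ^ 2 % 4 = (a2 % 2) := by
         rcases Int.even_or_odd' a2 with ⟨t, ht | ht⟩ <;> rw [ht] <;> ring_nf <;> omega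
       have r3 : b1 ^ 2 % 4 = (b1 % 2) := by
         rcases Int.even_or_odd' b1 with ⟨t, ht | ht⟩ <;> rw [ht] <;> ring_nf <;> omega
       have r4 : b2 ^ 2 % 4 = (b2 % 2) := by
         rcases Int.even_or_odd' b2 with ⟨t, ht | ht⟩ <;> rw [ht] <;> ring_nf <;> omega
       omega)
    | skip
  right
  refine ⟨?_, ⟨k1 - k2, by rw [hk1, hk2]; ring⟩, ⟨k3 - k4, by rw [hk3, hk4]; ring⟩⟩
  rintro ⟨m, hm⟩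
  rw [hX1, hX2, hX3, hX4, hm] at h1
  have : 4 * (4 * m ^ 2 - (2 * X1 + 2 * X3 + 2 * X2 + 2 * X4 + 8 * (e * (X2 + X4)) + 2 * e)) = 4 := by
    linear_combination -h1
  omega

end Pool.Agent.Helper8.P1
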