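import Pool.Agent.Helper8.P1.Arith

set_option autoImplicit false

namespace Pool.Agent.Helper8.P1

theorem sqmod4 (a : ℤ) : a ^ 2 % 4 = a % 2 := by
  rcases Int.even_or_odd' a with ⟨t, ht | ht⟩ <;> rw [ht] <;> ring_nf <;> omega

/-- `d = 4 e + 2` -/
theorem arith22 (e a1 a2 b1 b2 n : ℤ)
    (h1 : a1 ^ 2 + b1 ^ 2 + (4 * e + 2) * (a2 ^ 2 + b2 ^ 2) = (2 * n) ^ 2)
    (h2 : a1 * a2 + b1 * b2 = 0) :
    (2 ∣ a1 ∧ 2 ∣ a2 ∧ 2 ∣ b1 ∧ 2 ∣ b2) ∨ (¬ 2 ∣ n ∧ 2 ∣ a1 ∧ 2 ∣ b1) := by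
  have q1 : (4 * e + 2) * (a2 ^ 2 + b2 ^ 2) = 4 * (e * (a2 ^ 2 + b2 ^ 2)) + 2 * a2 ^ 2 + 2 * b2 ^ 2 := by
    ring
  have q2 : (2 * n) ^ 2 = 4 * n ^ 2 := by ring
  have g1 := h1
  rw [q1, q2] at g1
  have r1 := sqmod4 a1
  have r2 := sqmod4 a2
  have r3 := sqmod4 b1
  have r4 := sqmod4 b2
  have hmod : (a1 % 2 + b1 % 2 + 2 * (a2 % 2) + 2 * (b2 % 2)) % 4 = 0 := by
    generalize e * (a2 ^ 2 + b2 ^ 2) = E at g1
    generalize n ^ 2 = M at g1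
    omega
  rcases Int.even_or_odd' a1 with ⟨k1, hk1 | hk1⟩
  · -- a1 even
    have hb1 : b1 % 2 = 0 := by omega
    obtain ⟨k3, hk3⟩ : ∃ k, b1 = 2 * k := ⟨b1 / 2, by omega⟩
    rcases Int.even_or_odd' a2 with ⟨k2, hk2 | hk2⟩
    · left
      refine ⟨⟨k1, hk1⟩, ⟨k2, hk2⟩, ⟨k3, hk3⟩, ?_⟩
      omega
    · right
      refine ⟨?_, ⟨k1, hk1⟩, ⟨k3, hk3⟩⟩
      rintro ⟨m, hm⟩
      obtain ⟨k4, hk4⟩ : ∃ k, b2 = 2 * k + 1 := ⟨b2 / 2, by omega⟩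
      have h3 : k1 * (2 * k2 + 1) + k3 * (2 * k4 + 1) = 0 := by
        have : 2 * (k1 * (2 * k2 + 1) + k3 * (2 * k4 + 1)) = 0 := by
          rw [hk1, hk2, hk3, hk4] at h2
          linear_combination h2
        omega
      have h4 : k1 ^ 2 + k3 ^ 2 + (2 * e + 1) * (2 * (k2 ^ 2 + k2) + 2 * (k4 ^ 2 + k4) + 1) = 4 * m ^ 2 := by
        rw [hk1, hk2, hk3, hk4, hm] at h1
        have : 4 * (k1 ^ 2 + k3 ^ 2 + (2 * e + 1) * (2 * (k2 ^ 2 + k2) + 2 * (k4 ^ 2 + k4) + 1)) =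
            4 * (4 * m ^ 2) := by
          linear_combination h1
        omega
      have h5 : (k1 + k3) % 2 = 0 := by
        have : k1 + k3 = - (2 * (k1 * k2 + k3 * k4)) := by linear_combination h3
        omega
      have h6 : k1 ^ 2 + k3 ^ 2 = (k1 + k3) ^ 2 - 2 * (k1 * k3) := by ring
      have h7 : (k1 + k3) ^ 2 % 2 = 0 := by
        obtain ⟨t, ht⟩ : ∃ t, k1 + k3 = 2 * t := ⟨(k1 + k3) / 2, by omega⟩
        rw [ht]
        have : (2 * t) ^ 2 = 2 * (2 * t ^ 2) := by ring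
        omega
      have h8 : (2 * e + 1) * (2 * (k2 ^ 2 + k2) + 2 * (k4 ^ 2 + k4) + 1) =
          2 * (e * (2 * (k2 ^ 2 + k2) + 2 * (k4 ^ 2 + k4) + 1) + (k2 ^ 2 + k2) + (k4 ^ 2 + k4)) + 1 := by
        ring
      rw [h8, h6] at h4
      omega
  · -- a1 odd
    exfalso
    have hb1 : b1 % 2 = 1 := by omega
    have hs : (a2 + b2) % 2 = 1 := by omega
    obtain ⟨k3, hk3⟩ : ∃ k, b1 = 2 * k + 1 := ⟨b1 / 2, by omega⟩
    have : a2 + b2 = - (2 * (k1 * a2 + k3 * b2)) := by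
      rw [hk1, hk3] at h2
      linear_combination h2
    omega

/-- `d = 8 e + 3` -/
theorem arith23 (e a1 a2 b1 b2 n : ℤ)
    (h1 : a1 ^ 2 + b1 ^ 2 + (8 * e + 3) * (a2 ^ 2 + b2 ^ 2) = (2 * n) ^ 2)
    (h2 : a1 * a2 + b1 * b2 = 0) :
    (2 ∣ a1 ∧ 2 ∣ a2 ∧ 2 ∣ b1 ∧ 2 ∣ b2) ∨ (¬ 2 ∣ n ∧ 2 ∣ a1 - b2 ∧ 2 ∣ b1 + a2) := by
  have q1 : (8 * e + 3) * (a2 ^ 2 + b2 ^ 2) =
      4 * (2 * (e * (a2 ^ 2 + b2 ^ 2))) + 3 * a2 ^ 2 + 3 * b2 ^ 2 := by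
    ring
  have q2 : (2 * n) ^ 2 = 4 * n ^ 2 := by ring
  have g1 := h1
  rw [q1, q2] at g1
  have r1 := sqmod4 a1
  have r2 := sqmod4 a2
  have r3 := sqmod4 b1
  have r4 := sqmod4 b2
  have hmod : (a1 % 2 + b1 % 2 + 3 * (a2 % 2) + 3 * (b2 % 2)) % 4 = 0 := by
    generalize 2 * (e * (a2 ^ 2 + b2 ^ 2)) = E at g1
    generalize n ^ 2 = M at g1
    omega
  rcases par a1 with ⟨k1, hk1⟩ | ⟨k1, X1, hk1, hX1⟩
  · rcases par b1 with ⟨k3, hk3⟩ | ⟨k3, X3, hk3, hX3⟩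
    · left
      refine ⟨⟨k1, hk1⟩, ?_, ⟨k3, hk3⟩, ?_⟩ <;> omega
    · -- a1 even, b1 odd : a2 odd or b2 odd exactly one; parity of the product: b2 even
      right
      have hb2 : b2 % 2 = 0 := by
        have : b2 = - (2 * (k1 * a2 + k3 * b2)) := by
          rw [hk1, hk3] at h2
          linear_combination h2
        omega
      have ha2 : a2 % 2 = 1 := by omega
      obtain ⟨k4, hk4⟩ : ∃ k, b2 = 2 * k := ⟨b2 / 2, by omega⟩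
      rcases par a2 with ⟨k2, hk2⟩ | ⟨k2, X2, hk2, hX2⟩
      · omega
      refine ⟨?_, by omega, by omega⟩
      rintro ⟨m, hm⟩
      have h3 : (k1 + k4) % 2 = 0 := by
        have h3' : 2 * (k1 + k4 + 2 * (k1 * k2 + k3 * k4)) = 0 := by
          rw [hk1, hk2, hk3, hk4] at h2
          linear_combination h2
        omega
      have h4 : 4 * (k1 ^ 2 + 2 * X3 + 1 + 6 * X2 + 3 * k4 ^ 2 + 2 * e * (8 * X2 + 1 + 4 * k4 ^ 2)) =
          4 * (4 * m ^ 2) := by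
        rw [hX3, hX2, hk1, hk4, hm] at h1
        linear_combination h1
      have h5 : k1 ^ 2 + 3 * k4 ^ 2 = (k1 + k4) ^ 2 + 2 * (k4 ^ 2 - k1 * k4) := by ring
      have h6 : (k1 + k4) ^ 2 % 2 = 0 := by
        obtain ⟨t, ht⟩ : ∃ t, k1 + k4 = 2 * t := ⟨(k1 + k4) / 2, by omega⟩
        rw [ht]
        have : (2 * t) ^ 2 = 2 * (2 * t ^ 2) := by ring
        omega
      have h7 : 2 * e * (8 * X2 + 1 + 4 * k4 ^ 2) = 2 * (e * (8 * X2 + 1 + 4 * k4 ^ 2)) := by ring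
      rw [h7] at h4
      omega
  · rcases par b1 with ⟨k3, hk3⟩ | ⟨k3, X3, hk3, hX3⟩
    · right
      have ha2 : a2 % 2 = 0 := by
        have : a2 = - (2 * (k1 * a2 + k3 * b2)) := by
          rw [hk1, hk3] at h2
          linear_combination h2
        omega
      have hb2 : b2 % 2 = 1 := by omega
      obtain ⟨k2, hk2⟩ : ∃ k, a2 = 2 * k := ⟨a2 / 2, by omega⟩
      rcases par b2 with ⟨k4, hk4⟩ | ⟨k4, X4, hk4, hX4⟩
      · omega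
      refine ⟨?_, by omega, by omega⟩
      rintro ⟨m, hm⟩
      have h3 : (k3 + k2) % 2 = 0 := by
        have h3' : 2 * (k3 + k2 + 2 * (k1 * k2 + k3 * k4)) = 0 := by
          rw [hk1, hk2, hk3, hk4] at h2
          linear_combination h2
        omega
      have h4 : 4 * (k3 ^ 2 + 2 * X1 + 1 + 6 * X4 + 3 * k2 ^ 2 + 2 * e * (8 * X4 + 1 + 4 * k2 ^ 2)) =
          4 * (4 * m ^ 2) := by
        rw [hX1, hX4, hk3, hk2, hm] at h1
        linear_combination h1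
      have h5 : k3 ^ 2 + 3 * k2 ^ 2 = (k3 + k2) ^ 2 + 2 * (k2 ^ 2 - k3 * k2) := by ring
      have h6 : (k3 + k2) ^ 2 % 2 = 0 := by
        obtain ⟨t, ht⟩ : ∃ t, k3 + k2 = 2 * t := ⟨(k3 + k2) / 2, by omega⟩
        rw [ht]
        have : (2 * t) ^ 2 = 2 * (2 * t ^ 2) := by ring
        omega
      have h7 : 2 * e * (8 * X4 + 1 + 4 * k2 ^ 2) = 2 * (e * (8 * X4 + 1 + 4 * k2 ^ 2)) := by ring
      rw [h7] at h4
      omega
    · -- all odd: impossible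
      exfalso
      rcases par a2 with ⟨k2, hk2⟩ | ⟨k2, X2, hk2, hX2⟩
      · omega
      rcases par b2 with ⟨k4, hk4⟩ | ⟨k4, X4, hk4, hX4⟩
      · omega
      have h3 : (8 * X1 + 1) * (8 * X2 + 1) = (8 * X3 + 1) * (8 * X4 + 1) := by
        rw [← hX1, ← hX2, ← hX3, ← hX4]
        have : a1 * a2 = - (b1 * b2) := by linear_combination h2
        calc a1 ^ 2 * a2 ^ 2 = (a1 * a2) ^ 2 := by ring
          _ = (- (b1 * b2)) ^ 2 := by rw [this]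
          _ = b1 ^ 2 * b2 ^ 2 := by ring
      have h4 : (X1 + X2 + X3 + X4) % 2 = 0 := by
        have : 8 * (X1 + X2 - X3 - X4) = 8 * (8 * (X3 * X4 - X1 * X2)) := by linear_combination h3
        omega
      have h5 : 8 * (X1 + X3 + 3 * X2 + 3 * X4 + 1 + (8 * (e * (X2 + X4)) + 2 * e)) = 4 * n ^ 2 := by
        rw [hX1, hX2, hX3, hX4] at h1
        linear_combination h1
      have h6 : n ^ 2 % 4 = n % 2 := sqmod4 n
      omega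

end Pool.Agent.Helper8.P1
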