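import Pool.Agent.Helper8.P1.General
import Pool.Agent.Helper8.P1.Arith2

set_option autoImplicit false

namespace Pool.Agent.Helper8.P1

/-- the `p`-integral rational numbers -/
noncomputable def zs (p : ℕ) [Fact p.Prime] : Subring ℚ := (PadicInt.subring p).comap (Rat.castHom ℚ_[p])

noncomputable def toP (p : ℕ) [Fact p.Prime] : zs p →+* ℤ_[p] where
  toFun x := ⟨((x : ℚ) : ℚ_[p]), x.2⟩
  map_one' := by
    apply Subtype.ext
    show (((1 : zs p) : ℚ) : ℚ_[p]) = 1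
    simp
  map_mul' x y := by
    apply Subtype.ext
    show (((x * y : zs p) : ℚ) : ℚ_[p]) = ((x : ℚ) : ℚ_[p]) * ((y : ℚ) : ℚ_[p])
    simp
  map_zero' := by
    apply Subtype.ext
    show (((0 : zs p) : ℚ) : ℚ_[p]) = 0
    simp
  map_add' x y := by
    apply Subtype.ext
    show (((x + y : zs p) : ℚ) : ℚ_[p]) = ((x : ℚ) : ℚ_[p]) + ((y : ℚ) : ℚ_[p])
    simp

theorem div_mem (p : ℕ) [Fact p.Prime] (x : ℤ) (N : ℕ) (hN : ¬ p ∣ N) :
    ((x : ℚ) / (N : ℚ)) ∈ zs p := by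
  show ‖(((x : ℚ) / (N : ℚ) : ℚ) : ℚ_[p])‖ ≤ 1
  push_cast
  rw [norm_div]
  have h1 : ‖(N : ℚ_[p])‖ = 1 := by
    rw [Padic.norm_natCast_eq_one_iff]
    exact ((Nat.Prime.coprime_iff_not_dvd Fact.out).2 hN)
  rw [h1, div_one]
  exact Padic.norm_int_le_one x

theorem prim (p : ℕ) (hp : 2 ≤ p) (v : Q4) : ∃ (N : ℕ) (x1 x2 y1 y2 : ℤ), 0 < N ∧
    v.1 * N = x1 ∧ v.2.1 * N = x2 ∧ v.2.2.1 * N = y1 ∧ v.2.2.2 * N = y2 ∧
    (p ∣ N → ¬ ((p : ℤ) ∣ x1 ∧ (p : ℤ) ∣ x2 ∧ (p : ℤ) ∣ y1 ∧ (p : ℤ) ∣ y2)) := by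
  classical
  have hex : ∃ N : ℕ, 0 < N ∧ ∃ x1 x2 y1 y2 : ℤ, v.1 * N = x1 ∧ v.2.1 * N = x2 ∧
      v.2.2.1 * N = y1 ∧ v.2.2.2 * N = y2 := by
    refine ⟨v.1.den * v.2.1.den * v.2.2.1.den * v.2.2.2.den, ?_,
      v.1.num * v.2.1.den * v.2.2.1.den * v.2.2.2.den,
      v.2.1.num * v.1.den * v.2.2.1.den * v.2.2.2.den,
      v.2.2.1.num * v.1.den * v.2.1.den * v.2.2.2.den,
      v.2.2.2.num * v.1.den * v.2.1.den * v.2.2.1.den, ?_, ?_, ?_, ?_⟩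
    · have := v.1.den_pos
      have := v.2.1.den_pos
      have := v.2.2.1.den_pos
      have := v.2.2.2.den_pos
      positivity
    · push_cast
      linear_combination ((v.2.1.den : ℚ) * v.2.2.1.den * v.2.2.2.den) * Rat.mul_den_eq_num v.1
    · push_cast
      linear_combination ((v.1.den : ℚ) * v.2.2.1.den * v.2.2.2.den) * Rat.mul_den_eq_num v.2.1
    · push_cast
      linear_combination ((v.1.den : ℚ) * v.2.1.den * v.2.2.2.den) * Rat.mul_den_eq_num v.2.2.1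
    · push_cast
      linear_combination ((v.1.den : ℚ) * v.2.1.den * v.2.2.1.den) * Rat.mul_den_eq_num v.2.2.2
  obtain ⟨hN, x1, x2, y1, y2, h1, h2, h3, h4⟩ := Nat.find_spec hex
  refine ⟨Nat.find hex, x1, x2, y1, y2, hN, h1, h2, h3, h4, ?_⟩
  rintro ⟨M, hM⟩ ⟨⟨z1, e1⟩, ⟨z2, e2⟩, ⟨z3, e3⟩, ⟨z4, e4⟩⟩
  have hM0 : 0 < M := by
    rcases Nat.eq_zero_or_pos M with h0 | h0
    · rw [hM, h0] at hN
      simp at hN
    · exact h0
  have hlt : M < Nat.find hex := by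
    rw [hM]
    nlinarith
  apply Nat.find_min hex hlt
  have hp0 : (p : ℚ) ≠ 0 := by
    have : 0 < p := by omega
    exact_mod_cast this.ne'
  have aux : ∀ (a : ℚ) (x z : ℤ), a * (Nat.find hex : ℕ) = x → x = p * z → a * M = z := by
    intro a x z ha hx
    rw [hM, hx] at ha
    push_cast at ha
    have : (p : ℚ) * (a * M) = p * z := by linear_combination ha
    exact mul_left_cancel₀ hp0 this
  exact ⟨hM0, z1, z2, z3, z4, aux _ _ _ h1 e1, aux _ _ _ h2 e2, aux _ _ _ h3 e3, aux _ _ _ h4 e4⟩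

/-- integral form of the unit equations -/
theorem int_eq {d : ℕ} {v : Q4} (hv : IsU d v) {N : ℕ} {x1 x2 y1 y2 : ℤ}
    (h1 : v.1 * N = x1) (h2 : v.2.1 * N = x2) (h3 : v.2.2.1 * N = y1) (h4 : v.2.2.2 * N = y2) :
    x1 ^ 2 + y1 ^ 2 + (d : ℤ) * (x2 ^ 2 + y2 ^ 2) = (N : ℤ) ^ 2 ∧ x1 * x2 + y1 * y2 = 0 := by
  obtain ⟨u1, u2⟩ := hv
  constructor
  · have : ((x1 ^ 2 + y1 ^ 2 + (d : ℤ) * (x2 ^ 2 + y2 ^ 2) : ℤ) : ℚ) = (((N : ℤ) ^ 2 : ℤ) : ℚ) := by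
      push_cast
      rw [← h1, ← h2, ← h3, ← h4]
      linear_combination (N : ℚ) ^ 2 * u1
    exact_mod_cast this
  · have : ((x1 * x2 + y1 * y2 : ℤ) : ℚ) = ((0 : ℤ) : ℚ) := by
      push_cast
      rw [← h1, ← h2, ← h3, ← h4]
      linear_combination (N : ℚ) ^ 2 * u2
    exact_mod_cast this

def rt {S : Subring ℚ} (w : S × S × S × S) : S × S × S × S := (-w.2.2.1, -w.2.2.2, w.1, w.2.1)

theorem up_rt {S : Subring ℚ} (w : S × S × S × S) : up S (rt w) = rot (up S w) := by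
  rfl

end Pool.Agent.Helper8.P1
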