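import Pool.Agent.Helper8.P1.Two3

set_option autoImplicit false

namespace Pool.Agent.Helper8.P1

/-- the conclusion -/
def Concl (d : ℕ) : Prop :=
  ∃ c : ℂ → Bool, ∀ m : ℕ, (m = 1 ∨ m = 2) → ∀ v : Q4, ‖emb d v‖ = 1 → ∀ z : ℂ,
      ¬ (c (z + m * emb d v) = c z ∧ c (z + Complex.I * emb d v) = c z ∧
        c (z + m * emb d v + Complex.I * emb d v) = c z)

/-- `(a1, a2, b1, b2) ↦ (a1 - a2, 2 a2, b1 - b2, 2 b2)` -/
def T21 : Q4 →+ Q4 where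
  toFun v := (v.1 - v.2.1, 2 * v.2.1, v.2.2.1 - v.2.2.2, 2 * v.2.2.2)
  map_zero' := by
    refine Prod.ext ?_ (Prod.ext ?_ (Prod.ext ?_ ?_)) <;> simp
  map_add' x y := by
    refine Prod.ext ?_ (Prod.ext ?_ (Prod.ext ?_ ?_)) <;>
      simp only [Prod.fst_add, Prod.snd_add] <;> ring

def T22 : Q4 →+ Q4 where
  toFun v := (v.1, 2 * v.2.1, v.2.2.1, 2 * v.2.2.2)
  map_zero' := by
    refine Prod.ext ?_ (Prod.ext ?_ (Prod.ext ?_ ?_)) <;> simp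
  map_add' x y := by
    refine Prod.ext ?_ (Prod.ext ?_ (Prod.ext ?_ ?_)) <;>
      simp only [Prod.fst_add, Prod.snd_add] <;> ring

def TT23 : Q4 →+ Q4 where
  toFun v := (v.1 - v.2.2.2, 2 * v.2.2.2, v.2.2.1 + v.2.1, - (2 * v.2.1))
  map_zero' := by
    refine Prod.ext ?_ (Prod.ext ?_ (Prod.ext ?_ ?_)) <;> simp
  map_add' x y := by
    refine Prod.ext ?_ (Prod.ext ?_ (Prod.ext ?_ ?_)) <;>
      simp only [Prod.fst_add, Prod.snd_add] <;> ring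

theorem quo_mem {a : ℚ} {N n : ℕ} {x y : ℤ} (hN : N = 2 * n) (hn : ¬ 2 ∣ n) (hn0 : 0 < n)
    (ha : a * N = x) (hx : x = 2 * y) : a ∈ zs 2 := by
  have hnQ : (n : ℚ) ≠ 0 := by exact_mod_cast hn0.ne'
  have : a = (y : ℚ) / (n : ℚ) := by
    rw [eq_div_iff hnQ]
    rw [hN, hx] at ha
    push_cast at ha
    linarith
  rw [this]
  exact div_mem 2 y n hn

theorem odd_mem {a : ℚ} {N : ℕ} {x : ℤ} (hN : ¬ 2 ∣ N) (hN0 : 0 < N) (ha : a * N = x) :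
    a ∈ zs 2 := by
  have hnQ : (N : ℚ) ≠ 0 := by exact_mod_cast hN0.ne'
  have : a = (x : ℚ) / (N : ℚ) := by
    rw [eq_div_iff hnQ]; exact ha
  rw [this]
  exact div_mem 2 x N hN

theorem red42 : red4 2 = 2 := map_ofNat red4 2

theorem two1 (d e : ℕ) (hd : Irrational (√(d : ℝ))) (he : d = 4 * e + 1) : Concl d := by
  refine case_lemma hd (zs 2) red4 T21 (fun t => ev (l1 t)) ?_
  intro v hv
  obtain ⟨N, x1, x2, y1, y2, hN, h1, h2, h4, h5, hprim⟩ := prim 2 (by norm_num) v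
  obtain ⟨g1, g2⟩ := int_eq hv h1 h2 h4 h5
  have hmem : v.1 - v.2.1 ∈ zs 2 ∧ 2 * v.2.1 ∈ zs 2 ∧ v.2.2.1 - v.2.2.2 ∈ zs 2 ∧
      2 * v.2.2.2 ∈ zs 2 := by
    by_cases hdvd : 2 ∣ N
    · obtain ⟨n, hn⟩ := id hdvd
      have hn0 : 0 < n := by omega
      have g3 := g1
      rw [he, hn] at g3
      push_cast at g3
      rcases arith21 e x1 x2 y1 y2 n g3 with h | ⟨k1, ⟨z1, k2⟩, ⟨z2, k3⟩⟩
      · exact absurd h (hprim hdvd)
      · have hn2 : ¬ 2 ∣ n := by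
          intro h
          exact k1 (by exact_mod_cast h)
        refine ⟨quo_mem (x := x1 - x2) (y := z1) hn hn2 hn0 ?_ k2,
          quo_mem (x := 2 * x2) (y := x2) hn hn2 hn0 ?_ rfl,
          quo_mem (x := y1 - y2) (y := z2) hn hn2 hn0 ?_ k3,
          quo_mem (x := 2 * y2) (y := y2) hn hn2 hn0 ?_ rfl⟩
        · push_cast; rw [← h1, ← h2]; ring
        · push_cast; rw [← h2]; ring
        · push_cast; rw [← h4, ← h5]; ring
        · push_cast; rw [← h5]; ring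
    · refine ⟨(zs 2).sub_mem (odd_mem hdvd hN h1) (odd_mem hdvd hN h2), ?_,
        (zs 2).sub_mem (odd_mem hdvd hN h4) (odd_mem hdvd hN h5), ?_⟩
      · rw [two_mul]; exact (zs 2).add_mem (odd_mem hdvd hN h2) (odd_mem hdvd hN h2)
      · rw [two_mul]; exact (zs 2).add_mem (odd_mem hdvd hN h5) (odd_mem hdvd hN h5)
  let w : zs 2 × zs 2 × zs 2 × zs 2 :=
    (⟨_, hmem.1⟩, ⟨_, hmem.2.1⟩, ⟨_, hmem.2.2.1⟩, ⟨_, hmem.2.2.2⟩)
  have hrot : T21 (rot v) = up (zs 2) (rt w) := by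
    refine Prod.ext ?_ (Prod.ext ?_ (Prod.ext ?_ ?_))
    · show -v.2.2.1 - -v.2.2.2 = -(v.2.2.1 - v.2.2.2)
      ring
    · show 2 * -v.2.2.2 = -(2 * v.2.2.2)
      ring
    · rfl
    · rfl
  refine ⟨w, rt w, rfl, hrot, ?_⟩
  obtain ⟨u1, u2⟩ := hv
  have hdq : (d : ℚ) = 4 * (e : ℚ) + 1 := by rw [he]; push_cast; ring
  have r2 : 2 * ((red4 w.1) * (red4 w.2.1) + (red4 w.2.2.1) * (red4 w.2.2.2)) +
      ((red4 w.2.1) ^ 2 + (red4 w.2.2.2) ^ 2) = 0 := by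
    have : 2 * (w.1 * w.2.1 + w.2.2.1 * w.2.2.2) + (w.2.1 ^ 2 + w.2.2.2 ^ 2) = 0 := by
      apply Subtype.ext
      push_cast
      show 2 * ((v.1 - v.2.1) * (2 * v.2.1) + (v.2.2.1 - v.2.2.2) * (2 * v.2.2.2)) +
        ((2 * v.2.1) ^ 2 + (2 * v.2.2.2) ^ 2) = 0
      linear_combination 4 * u2
    have h := congrArg red4 this
    simpa [red42] using h
  have r1 : (red4 w.1) ^ 2 + (red4 w.2.2.1) ^ 2 +
      (e : ZMod 4) * ((red4 w.2.1) ^ 2 + (red4 w.2.2.2) ^ 2) = 1 := by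
    have : w.1 ^ 2 + w.2.2.1 ^ 2 + (e : zs 2) * (w.2.1 ^ 2 + w.2.2.2 ^ 2) = 1 := by
      apply Subtype.ext
      push_cast
      show (v.1 - v.2.1) ^ 2 + (v.2.2.1 - v.2.2.2) ^ 2 +
        (e : ℚ) * ((2 * v.2.1) ^ 2 + (2 * v.2.2.2) ^ 2) = 1
      rw [hdq] at u1
      linear_combination u1 - 2 * u2
    have h := congrArg red4 this
    simpa [red42] using h
  obtain ⟨p1, p2⟩ := par21 _ _ _ _ _ r1 r2
  refine good_par l1 _ _ p1 ?_
  show ev (red4 (-w.2.2.1) + red4 w.1) = false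
  rw [map_neg]
  exact p2

theorem two2 (d e : ℕ) (hd : Irrational (√(d : ℝ))) (he : d = 4 * e + 2) : Concl d := by
  refine case_lemma hd (zs 2) red4 T22 (fun t => ev (l2 t)) ?_
  intro v hv
  obtain ⟨N, x1, x2, y1, y2, hN, h1, h2, h4, h5, hprim⟩ := prim 2 (by norm_num) v
  obtain ⟨g1, g2⟩ := int_eq hv h1 h2 h4 h5
  have hmem : v.1 ∈ zs 2 ∧ 2 * v.2.1 ∈ zs 2 ∧ v.2.2.1 ∈ zs 2 ∧ 2 * v.2.2.2 ∈ zs 2 := by
    by_cases hdvd : 2 ∣ N
    · obtain ⟨n, hn⟩ := id hdvd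
      have hn0 : 0 < n := by omega
      have g3 := g1
      rw [he, hn] at g3
      push_cast at g3
      rcases arith22 e x1 x2 y1 y2 n g3 g2 with h | ⟨k1, ⟨z1, k2⟩, ⟨z2, k3⟩⟩
      · exact absurd h (hprim hdvd)
      · have hn2 : ¬ 2 ∣ n := by
          intro h
          exact k1 (by exact_mod_cast h)
        refine ⟨quo_mem (x := x1) (y := z1) hn hn2 hn0 h1 k2,
          quo_mem (x := 2 * x2) (y := x2) hn hn2 hn0 ?_ rfl,
          quo_mem (x := y1) (y := z2) hn hn2 hn0 h4 k3,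
          quo_mem (x := 2 * y2) (y := y2) hn hn2 hn0 ?_ rfl⟩
        · push_cast; rw [← h2]; ring
        · push_cast; rw [← h5]; ring
    · refine ⟨odd_mem hdvd hN h1, ?_, odd_mem hdvd hN h4, ?_⟩
      · rw [two_mul]; exact (zs 2).add_mem (odd_mem hdvd hN h2) (odd_mem hdvd hN h2)
      · rw [two_mul]; exact (zs 2).add_mem (odd_mem hdvd hN h5) (odd_mem hdvd hN h5)
  let w : zs 2 × zs 2 × zs 2 × zs 2 :=
    (⟨_, hmem.1⟩, ⟨_, hmem.2.1⟩, ⟨_, hmem.2.2.1⟩, ⟨_, hmem.2.2.2⟩)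
  have hrot : T22 (rot v) = up (zs 2) (rt w) := by
    refine Prod.ext ?_ (Prod.ext ?_ (Prod.ext ?_ ?_))
    · rfl
    · show 2 * -v.2.2.2 = -(2 * v.2.2.2)
      ring
    · rfl
    · rfl
  refine ⟨w, rt w, rfl, hrot, ?_⟩
  obtain ⟨u1, u2⟩ := hv
  have hdq : (d : ℚ) = 4 * (e : ℚ) + 2 := by rw [he]; push_cast; ring
  have r2 : (red4 w.1) * (red4 w.2.1) + (red4 w.2.2.1) * (red4 w.2.2.2) = 0 := by
    have : w.1 * w.2.1 + w.2.2.1 * w.2.2.2 = 0 := by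
      apply Subtype.ext
      push_cast
      show v.1 * (2 * v.2.1) + v.2.2.1 * (2 * v.2.2.2) = 0
      linear_combination 2 * u2
    have h := congrArg red4 this
    simpa [red42] using h
  have r1 : 2 * (red4 w.1) ^ 2 + 2 * (red4 w.2.2.1) ^ 2 +
      (2 * (e : ZMod 4) + 1) * ((red4 w.2.1) ^ 2 + (red4 w.2.2.2) ^ 2) = 2 := by
    have : 2 * w.1 ^ 2 + 2 * w.2.2.1 ^ 2 + (2 * (e : zs 2) + 1) * (w.2.1 ^ 2 + w.2.2.2 ^ 2) = 2 := by
      apply Subtype.ext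
      push_cast
      show 2 * v.1 ^ 2 + 2 * v.2.2.1 ^ 2 +
        (2 * (e : ℚ) + 1) * ((2 * v.2.1) ^ 2 + (2 * v.2.2.2) ^ 2) = 2
      rw [hdq] at u1
      linear_combination 2 * u1
    have h := congrArg red4 this
    simpa [red42] using h
  obtain ⟨p1, p2⟩ := par22 _ _ _ _ _ r1 r2
  refine good_par l2 _ _ p1 ?_
  show ev (red4 (-w.2.2.1) + red4 w.1 + red4 w.2.1) = false
  rw [map_neg]
  exact p2

theorem two3 (d e : ℕ) (hd : Irrational (√(d : ℝ))) (he : d = 8 * e + 3) : Concl d := by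
  refine case_lemma hd (zs 2) red4 TT23 C23 ?_
  intro v hv
  obtain ⟨N, x1, x2, y1, y2, hN, h1, h2, h4, h5, hprim⟩ := prim 2 (by norm_num) v
  obtain ⟨g1, g2⟩ := int_eq hv h1 h2 h4 h5
  have hmem : v.1 - v.2.2.2 ∈ zs 2 ∧ 2 * v.2.2.2 ∈ zs 2 ∧ v.2.2.1 + v.2.1 ∈ zs 2 ∧
      - (2 * v.2.1) ∈ zs 2 := by
    by_cases hdvd : 2 ∣ N
    · obtain ⟨n, hn⟩ := id hdvd
      have hn0 : 0 < n := by omega
      have g3 := g1
      rw [he, hn] at g3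
      push_cast at g3
      rcases arith23 e x1 x2 y1 y2 n g3 g2 with h | ⟨k1, ⟨z1, k2⟩, ⟨z2, k3⟩⟩
      · exact absurd h (hprim hdvd)
      · have hn2 : ¬ 2 ∣ n := by
          intro h
          exact k1 (by exact_mod_cast h)
        refine ⟨quo_mem (x := x1 - y2) (y := z1) hn hn2 hn0 ?_ k2,
          quo_mem (x := 2 * y2) (y := y2) hn hn2 hn0 ?_ rfl,
          quo_mem (x := y1 + x2) (y := z2) hn hn2 hn0 ?_ k3,
          (zs 2).neg_mem (quo_mem (x := 2 * x2) (y := x2) hn hn2 hn0 ?_ rfl)⟩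
        · push_cast; rw [← h1, ← h5]; ring
        · push_cast; rw [← h5]; ring
        · push_cast; rw [← h4, ← h2]; ring
        · push_cast; rw [← h2]; ring
    · refine ⟨(zs 2).sub_mem (odd_mem hdvd hN h1) (odd_mem hdvd hN h5), ?_,
        (zs 2).add_mem (odd_mem hdvd hN h4) (odd_mem hdvd hN h2), ?_⟩
      · rw [two_mul]; exact (zs 2).add_mem (odd_mem hdvd hN h5) (odd_mem hdvd hN h5)
      · rw [two_mul]
        exact (zs 2).neg_mem ((zs 2).add_mem (odd_mem hdvd hN h2) (odd_mem hdvd hN h2))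
  let w : zs 2 × zs 2 × zs 2 × zs 2 :=
    (⟨_, hmem.1⟩, ⟨_, hmem.2.1⟩, ⟨_, hmem.2.2.1⟩, ⟨_, hmem.2.2.2⟩)
  have hrot : TT23 (rot v) = up (zs 2) (rt w) := by
    refine Prod.ext ?_ (Prod.ext ?_ (Prod.ext ?_ ?_))
    · show -v.2.2.1 - v.2.1 = -(v.2.2.1 + v.2.1)
      ring
    · show 2 * v.2.1 = - -(2 * v.2.1)
      ring
    · show v.1 + -v.2.2.2 = v.1 - v.2.2.2
      ring
    · show -(2 * -v.2.2.2) = 2 * v.2.2.2
      ring
  refine ⟨w, rt w, rfl, hrot, ?_⟩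
  obtain ⟨u1, u2⟩ := hv
  have hdq : (d : ℚ) = 8 * (e : ℚ) + 3 := by rw [he]; push_cast; ring
  have r2 : (red4 w.2.2.1) * (red4 w.2.1) = (red4 w.1) * (red4 w.2.2.2) := by
    have : w.2.2.1 * w.2.1 = w.1 * w.2.2.2 := by
      apply Subtype.ext
      push_cast
      show (v.2.2.1 + v.2.1) * (2 * v.2.2.2) = (v.1 - v.2.2.2) * (-(2 * v.2.1))
      linear_combination 2 * u2
    have h := congrArg red4 this
    simpa [red42] using h
  have r1 : (red4 w.1) ^ 2 + (red4 w.1) * (red4 w.2.1) + (red4 w.2.2.1) ^ 2 +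
      (red4 w.2.2.1) * (red4 w.2.2.2) +
      (2 * (e : ZMod 4) + 1) * ((red4 w.2.1) ^ 2 + (red4 w.2.2.2) ^ 2) = 1 := by
    have : w.1 ^ 2 + w.1 * w.2.1 + w.2.2.1 ^ 2 + w.2.2.1 * w.2.2.2 +
        (2 * (e : zs 2) + 1) * (w.2.1 ^ 2 + w.2.2.2 ^ 2) = 1 := by
      apply Subtype.ext
      push_cast
      show (v.1 - v.2.2.2) ^ 2 + (v.1 - v.2.2.2) * (2 * v.2.2.2) + (v.2.2.1 + v.2.1) ^ 2 +
        (v.2.2.1 + v.2.1) * (-(2 * v.2.1)) +
        (2 * (e : ℚ) + 1) * ((2 * v.2.2.2) ^ 2 + (-(2 * v.2.1)) ^ 2) = 1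
      rw [hdq] at u1
      linear_combination u1
    have h := congrArg red4 this
    simpa [red42] using h
  have hm : (2 * (e : ZMod 4) + 1) = 1 ∨ (2 * (e : ZMod 4) + 1) = 3 := by
    generalize (e : ZMod 4) = x
    revert x
    decide
  have r1' : (red4 w.1) ^ 2 + (red4 w.1) * (red4 w.2.1) + (red4 w.2.2.1) ^ 2 +
      (red4 w.2.2.1) * (red4 w.2.2.2) + ((red4 w.2.1) ^ 2 + (red4 w.2.2.2) ^ 2) = 1 ∨
      (red4 w.1) ^ 2 + (red4 w.1) * (red4 w.2.1) + (red4 w.2.2.1) ^ 2 +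
      (red4 w.2.2.1) * (red4 w.2.2.2) + 3 * ((red4 w.2.1) ^ 2 + (red4 w.2.2.2) ^ 2) = 1 := by
    rcases hm with hm | hm
    · left; rw [hm, one_mul] at r1; exact r1
    · right; rw [hm] at r1; exact r1
  have hfin := good_of_chk (dn red4 w) (dn red4 (rt w)) (by
    rintro ⟨a, b, c, f⟩
    have h := chk23 (red4 w.1) (red4 w.2.1) (red4 w.2.2.1) (red4 w.2.2.2) r1' r2 a b c f
    have e1 : dn red4 (rt w) = (- red4 w.2.2.1, - red4 w.2.2.2, red4 w.1, red4 w.2.1) := by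
      show (red4 (-w.2.2.1), red4 (-w.2.2.2), red4 w.1, red4 w.2.1) = _
      rw [map_neg, map_neg]
    rw [e1]
    exact h)
  exact hfin

end Pool.Agent.Helper8.P1
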