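import Pool.Agent.Helper8.P1.Three
import Pool.Agent.Helper8.P1.TwoMain

set_option autoImplicit false

namespace Pool.Agent.Helper8.P1

theorem all_cases (d : ℕ) (h2 : 2 ≤ d) (hsq : Squarefree d) (h23 : d % 24 ≠ 23) : Concl d := by
  have hd : Irrational (√(d : ℝ)) := by
    rw [irrational_sqrt_natCast_iff]
    rintro ⟨x, hx⟩
    have h1 := hsq x ⟨1, by rw [hx, mul_one]⟩
    rw [Nat.isUnit_iff] at h1
    rw [h1] at hx
    omega
  by_cases h3 : d % 3 = 2
  · have h4 : d % 4 ≠ 0 := by
      intro h4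
      have h5 := hsq 2 (by
        obtain ⟨k, hk⟩ := Nat.dvd_of_mod_eq_zero h4
        exact ⟨k, by omega⟩)
      rw [Nat.isUnit_iff] at h5
      omega
    have h6 : d % 4 = 1 ∨ d % 4 = 2 ∨ d % 8 = 3 := by omega
    rcases h6 with h6 | h6 | h6
    · exact two1 d (d / 4) hd (by omega)
    · exact two2 d (d / 4) hd (by omega)
    · exact two3 d (d / 8) hd (by omega)
  · refine three d hd ?_
    by_cases h4 : d % 3 = 1
    · left
      exact ⟨d / 3, by omega⟩
    · right
      refine ⟨d / 3, by omega, ?_⟩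
      rintro ⟨k, hk⟩
      have h5 : d = 3 * 3 * k := by omega
      have h6 := hsq 3 ⟨k, h5⟩
      rw [Nat.isUnit_iff] at h6
      omega

end Pool.Agent.Helper8.P1
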