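import Mathlib

set_option autoImplicit false

namespace Pool.Agent.Helper8.P1

open Complex

theorem color_of {L G : Type} [AddCommGroup L] [AddCommGroup G] (j : L →+ ℂ)
    (hj : Function.Injective j) (f : L →+ G) (C : G → Bool) :
    ∃ c : ℂ → Bool, ∀ x y : L,
      (∀ t : G, ¬ (C (t + f x) = C t ∧ C (t + f y) = C t ∧ C (t + f x + f y) = C t)) →
      ∀ z, ¬ (c (z + j x) = c z ∧ c (z + j y) = c z ∧ c (z + j x + j y) = c z) := by
  classical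
  let S : AddSubgroup ℂ := j.range
  let e : L ≃+ S := AddMonoidHom.ofInjective hj
  let g : S →+ G := f.comp e.symm.toAddMonoidHom
  let r : ℂ → ℂ := fun z => (QuotientAddGroup.mk z : ℂ ⧸ S).out
  have hr1 : ∀ z, z - r z ∈ S := by
    intro z
    obtain ⟨h, hh⟩ := QuotientAddGroup.mk_out_eq_add S z
    have h1 : z - r z = -(h : ℂ) := by
      show z - (QuotientAddGroup.mk z : ℂ ⧸ S).out = _
      rw [hh]; ring
    rw [h1]
    exact S.neg_mem h.2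
  have hr2 : ∀ z s, s ∈ S → r (z + s) = r z := by
    intro z s hs
    have h1 : (QuotientAddGroup.mk (z + s) : ℂ ⧸ S) = QuotientAddGroup.mk z := by
      rw [QuotientAddGroup.eq]
      have h2 : -(z + s) + z = -s := by ring
      rw [h2]
      exact S.neg_mem hs
    show (QuotientAddGroup.mk (z + s) : ℂ ⧸ S).out = (QuotientAddGroup.mk z : ℂ ⧸ S).out
    rw [h1]
  have key : ∀ x : L, g ⟨j x, ⟨x, rfl⟩⟩ = f x := by
    intro x
    have h1 : (⟨j x, ⟨x, rfl⟩⟩ : S) = e x := rfl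
    show f (e.symm ⟨j x, _⟩) = f x
    rw [h1, AddEquiv.symm_apply_apply]
  have hadd : ∀ (z : ℂ) (x : L),
      g ⟨(z + j x) - r (z + j x), hr1 (z + j x)⟩ = g ⟨z - r z, hr1 z⟩ + f x := by
    intro z x
    rw [← key x, ← map_add]
    congr 1
    apply Subtype.ext
    show (z + j x) - r (z + j x) = (z - r z) + j x
    rw [hr2 z (j x) ⟨x, rfl⟩]
    ring
  refine ⟨fun z => C (g ⟨z - r z, hr1 z⟩), ?_⟩
  intro x y hC z hc
  apply hC (g ⟨z - r z, hr1 z⟩)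
  obtain ⟨c1, c2, c3⟩ := hc
  simp only at c1 c2 c3
  have e1 := hadd z x
  have e2 := hadd z y
  have e3 := hadd (z + j x) y
  rw [e1] at e3
  rw [e1] at c1
  rw [e2] at c2
  rw [e3] at c3
  exact ⟨c1, c2, c3⟩

abbrev Q4 : Type := ℚ × ℚ × ℚ × ℚ

noncomputable def emb (d : ℕ) : Q4 →+ ℂ where
  toFun v := ⟨(v.1 : ℝ) + (v.2.1 : ℝ) * √(d : ℝ), (v.2.2.1 : ℝ) + (v.2.2.2 : ℝ) * √(d : ℝ)⟩
  map_zero' := by
    apply Complex.ext <;> simp
  map_add' p q := by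
    apply Complex.ext
    · simp; ring
    · simp; ring

theorem irr_zero {s : ℝ} (hs : Irrational s) (a b : ℚ) (h : (a : ℝ) + (b : ℝ) * s = 0) :
    a = 0 ∧ b = 0 := by
  have hb : b = 0 := by
    by_contra hb
    apply hs
    have hb' : (b : ℝ) ≠ 0 := by exact_mod_cast hb
    refine ⟨- a / b, ?_⟩
    push_cast
    field_simp
    linarith
  subst hb
  refine ⟨?_, rfl⟩
  have : (a : ℝ) = 0 := by simpa using h
  exact_mod_cast this

theorem emb_inj {d : ℕ} (hd : Irrational (√(d : ℝ))) : Function.Injective (emb d) := by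
  rw [injective_iff_map_eq_zero]
  intro v hv
  have h1 := congrArg Complex.re hv
  have h2 := congrArg Complex.im hv
  have h3 := irr_zero hd v.1 v.2.1 h1
  have h4 := irr_zero hd v.2.2.1 v.2.2.2 h2
  obtain ⟨v1, v2, v3, v4⟩ := v
  simp only at h3 h4
  rw [h3.1, h3.2, h4.1, h4.2]
  rfl

/-- the equations of a unit vector -/
def IsU (d : ℕ) (v : Q4) : Prop :=
  v.1 ^ 2 + v.2.2.1 ^ 2 + (d : ℚ) * (v.2.1 ^ 2 + v.2.2.2 ^ 2) = 1 ∧
    v.1 * v.2.1 + v.2.2.1 * v.2.2.2 = 0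

def rot (v : Q4) : Q4 := (-v.2.2.1, -v.2.2.2, v.1, v.2.1)

theorem emb_rot (d : ℕ) (v : Q4) : emb d (rot v) = Complex.I * emb d v := by
  apply Complex.ext
  · simp [emb, rot]; ring
  · simp [emb, rot]

theorem isU_of_norm {d : ℕ} (hd : Irrational (√(d : ℝ))) (v : Q4) (h : ‖emb d v‖ = 1) :
    IsU d v := by
  have h1 := Complex.sq_norm (emb d v)
  rw [h, Complex.normSq_apply] at h1
  have hs : √(d : ℝ) * √(d : ℝ) = d := Real.mul_self_sqrt (Nat.cast_nonneg d)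
  have h2 : (((v.1 ^ 2 + v.2.2.1 ^ 2 + (d : ℚ) * (v.2.1 ^ 2 + v.2.2.2 ^ 2) - 1 : ℚ)) : ℝ) +
      (((2 * (v.1 * v.2.1 + v.2.2.1 * v.2.2.2) : ℚ)) : ℝ) * √(d : ℝ) = 0 := by
    push_cast
    have h3 : (1 : ℝ) ^ 2 = ((v.1 : ℝ) + (v.2.1 : ℝ) * √(d : ℝ)) * ((v.1 : ℝ) + (v.2.1 : ℝ) * √(d : ℝ)) +
      ((v.2.2.1 : ℝ) + (v.2.2.2 : ℝ) * √(d : ℝ)) * ((v.2.2.1 : ℝ) + (v.2.2.2 : ℝ) * √(d : ℝ)) := h1
    linear_combination -h3 - ((v.2.1 : ℝ) ^ 2 + (v.2.2.2 : ℝ) ^ 2) * hs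
  obtain ⟨h4, h5⟩ := irr_zero hd _ _ h2
  refine ⟨by linarith, by linarith⟩

def Good {R : Type} [CommRing R] (C : R × R × R × R → Bool) (x y : R × R × R × R) : Prop :=
  ∀ t, ¬ (C (t + x) = C t ∧ C (t + y) = C t ∧ C (t + x + y) = C t) ∧
    ¬ (C (t + (2 : ℕ) • x) = C t ∧ C (t + y) = C t ∧ C (t + (2 : ℕ) • x + y) = C t)

def up (S : Subring ℚ) (w : S × S × S × S) : Q4 := ((w.1 : ℚ), (w.2.1 : ℚ), (w.2.2.1 : ℚ), (w.2.2.2 : ℚ))

def dn {S : Subring ℚ} {R : Type} [CommRing R] (ρ : S →+* R) (w : S × S × S × S) : R × R × R × R :=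
  (ρ w.1, ρ w.2.1, ρ w.2.2.1, ρ w.2.2.2)

theorem up_inj (S : Subring ℚ) : Function.Injective (up S) := by
  rintro ⟨a, b, c, d⟩ ⟨a', b', c', d'⟩ h
  simp only [up, Prod.mk.injEq] at h
  obtain ⟨h1, h2, h3, h4⟩ := h
  rw [Subtype.ext h1, Subtype.ext h2, Subtype.ext h3, Subtype.ext h4]

theorem case_lemma {d : ℕ} (hd : Irrational (√(d : ℝ))) (S : Subring ℚ) {R : Type} [CommRing R]
    (ρ : S →+* R) (T : Q4 →+ Q4) (C : R × R × R × R → Bool)
    (h : ∀ v, IsU d v → ∃ w w' : S × S × S × S, T v = up S w ∧ T (rot v) = up S w' ∧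
      Good C (dn ρ w) (dn ρ w')) :
    ∃ c : ℂ → Bool, ∀ m : ℕ, (m = 1 ∨ m = 2) → ∀ v : Q4, ‖emb d v‖ = 1 → ∀ z : ℂ,
      ¬ (c (z + m * emb d v) = c z ∧ c (z + Complex.I * emb d v) = c z ∧
        c (z + m * emb d v + Complex.I * emb d v) = c z) := by
  -- the additive group
  let L : AddSubgroup Q4 := AddSubgroup.comap T
    ((S.toAddSubgroup).prod ((S.toAddSubgroup).prod ((S.toAddSubgroup).prod S.toAddSubgroup)))
  let f : L →+ R × R × R × R :=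
    { toFun := fun v => (ρ ⟨(T v.1).1, v.2.1⟩, ρ ⟨(T v.1).2.1, v.2.2.1⟩,
        ρ ⟨(T v.1).2.2.1, v.2.2.2.1⟩, ρ ⟨(T v.1).2.2.2, v.2.2.2.2⟩)
      map_zero' := by
        have h0 : ∀ (x : ℚ) (hx : x ∈ S), x = 0 → ρ ⟨x, hx⟩ = 0 := by
          intro x hx h0
          subst h0
          exact map_zero ρ
        have hz : T ((0 : L) : Q4) = 0 := map_zero T
        refine Prod.ext ?_ (Prod.ext ?_ (Prod.ext ?_ ?_))
        · exact h0 _ _ (by rw [hz]; rfl)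
        · exact h0 _ _ (by rw [hz]; rfl)
        · exact h0 _ _ (by rw [hz]; rfl)
        · exact h0 _ _ (by rw [hz]; rfl)
      map_add' := by
        intro x y
        have h0 : ∀ (a b c : ℚ) (ha : a ∈ S) (hb : b ∈ S) (hc : c ∈ S), c = a + b →
            ρ ⟨c, hc⟩ = ρ ⟨a, ha⟩ + ρ ⟨b, hb⟩ := by
          intro a b c ha hb hc habc
          subst habc
          rw [← map_add]
          rfl
        have hz : T ((x + y : L) : Q4) = T x + T y := map_add T _ _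
        refine Prod.ext ?_ (Prod.ext ?_ (Prod.ext ?_ ?_))
        · exact h0 _ _ _ _ _ _ (by rw [hz]; rfl)
        · exact h0 _ _ _ _ _ _ (by rw [hz]; rfl)
        · exact h0 _ _ _ _ _ _ (by rw [hz]; rfl)
        · exact h0 _ _ _ _ _ _ (by rw [hz]; rfl) }
  have hf : ∀ (v : Q4) (w : S × S × S × S) (hv : T v = up S w), ∃ hL : v ∈ L, f ⟨v, hL⟩ = dn ρ w := by
    intro v w hv
    have hL : v ∈ L := by
      refine AddSubgroup.mem_comap.2 ?_
      rw [hv]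
      exact ⟨w.1.2, w.2.1.2, w.2.2.1.2, w.2.2.2.2⟩
    refine ⟨hL, ?_⟩
    have h0 : ∀ (x : ℚ) (hx : x ∈ S) (y : S), x = (y : ℚ) → ρ ⟨x, hx⟩ = ρ y := by
      intro x hx y hxy
      congr 1
      exact Subtype.ext hxy
    refine Prod.ext ?_ (Prod.ext ?_ (Prod.ext ?_ ?_))
    · exact h0 _ _ _ (by rw [hv]; rfl)
    · exact h0 _ _ _ (by rw [hv]; rfl)
    · exact h0 _ _ _ (by rw [hv]; rfl)
    · exact h0 _ _ _ (by rw [hv]; rfl)
  obtain ⟨c, hc⟩ := color_of ((emb d).comp L.subtype)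
    ((emb_inj hd).comp Subtype.val_injective) f C
  refine ⟨c, ?_⟩
  intro m hm v hv z
  have hU := isU_of_norm hd v hv
  obtain ⟨w, w', h1, h2, hG⟩ := h v hU
  obtain ⟨hL, hfw⟩ := hf v w h1
  obtain ⟨hL', hfw'⟩ := hf (rot v) w' h2
  have e2 : ((emb d).comp L.subtype) ⟨rot v, hL'⟩ = Complex.I * emb d v := emb_rot d v
  rcases hm with hm | hm
  · subst hm
    have h3 := hc ⟨v, hL⟩ ⟨rot v, hL'⟩ (by
      intro t
      rw [hfw, hfw']
      exact (hG t).1) z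
    rw [e2] at h3
    have e1 : ((emb d).comp L.subtype) ⟨v, hL⟩ = ((1 : ℕ) : ℂ) * emb d v := by
      rw [Nat.cast_one, one_mul]; rfl
    rw [e1] at h3
    exact h3
  · subst hm
    have h3 := hc ((2 : ℕ) • ⟨v, hL⟩) ⟨rot v, hL'⟩ (by
      intro t
      rw [map_nsmul, hfw, hfw']
      exact (hG t).2) z
    rw [e2] at h3
    have e1 : ((emb d).comp L.subtype) ((2 : ℕ) • ⟨v, hL⟩) = ((2 : ℕ) : ℂ) * emb d v := by
      rw [map_nsmul, nsmul_eq_mul]; rfl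
    rw [e1] at h3
    exact h3

end Pool.Agent.Helper8.P1
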