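import Mathlib

namespace Pool.Agent.Helper8.P1

open Complex

variable {F : Subfield ℝ}

/-- norm one pairs over a valuation ring with a map onto `ZMod 3` are integral -/
theorem mem_of_norm_one {K : Type*} [Field K] (A : ValuationSubring K) (φ : A →+* ZMod 3)
    {x y : K} (h : x ^ 2 + y ^ 2 = 1) : x ∈ A := by
  by_contra hx
  have hx0 : x ≠ 0 := by
    intro h0
    apply hx
    rw [h0]
    exact A.zero_mem
  have hxi : x⁻¹ ∈ A := (A.mem_or_inv_mem x).resolve_left hx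
  have hsq : (y * x⁻¹) ^ 2 + 1 = x⁻¹ ^ 2 := by
    have h1 : y ^ 2 = 1 - x ^ 2 := by rw [← h]; ring
    have h2 : x * x⁻¹ = 1 := mul_inv_cancel₀ hx0
    calc (y * x⁻¹) ^ 2 + 1 = y ^ 2 * x⁻¹ ^ 2 + 1 := by ring
      _ = (1 - x ^ 2) * x⁻¹ ^ 2 + 1 := by rw [h1]
      _ = x⁻¹ ^ 2 - (x * x⁻¹) ^ 2 + 1 := by ring
      _ = x⁻¹ ^ 2 := by rw [h2]; ring
  have hw : (y * x⁻¹) ∈ A := by
    rcases A.mem_or_inv_mem (y * x⁻¹) with h3 | h3
    · exact h3
    · by_cases h4 : y * x⁻¹ = 0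
      · rw [h4]; exact A.zero_mem
      · have h5 : (y * x⁻¹) * (y * x⁻¹)⁻¹ = 1 := mul_inv_cancel₀ h4
        have h6 : y * x⁻¹ = (x⁻¹ ^ 2 - 1) * (y * x⁻¹)⁻¹ := by
          have h7 : (y * x⁻¹) ^ 2 = x⁻¹ ^ 2 - 1 := by rw [← hsq]; ring
          calc y * x⁻¹ = (y * x⁻¹) * ((y * x⁻¹) * (y * x⁻¹)⁻¹) := by rw [h5, mul_one]
            _ = (y * x⁻¹) ^ 2 * (y * x⁻¹)⁻¹ := by ring
            _ = (x⁻¹ ^ 2 - 1) * (y * x⁻¹)⁻¹ := by rw [h7]
        rw [h6]
        exact A.mul_mem _ _ (A.sub_mem (A.pow_mem hxi 2) A.one_mem) h3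
  -- x⁻¹ is not a unit of A
  have hnu : φ ⟨x⁻¹, hxi⟩ = 0 := by
    by_contra hne
    -- the kernel of φ is maximal; x⁻¹ is in the maximal ideal of A
    have hloc : (⟨x⁻¹, hxi⟩ : A) ∈ IsLocalRing.maximalIdeal A := by
      rw [IsLocalRing.mem_maximalIdeal, mem_nonunits_iff]
      intro hu
      apply hx
      obtain ⟨u, hu⟩ := hu
      have h8 : ((u⁻¹ : Aˣ) : A) * ⟨x⁻¹, hxi⟩ = 1 := by
        rw [← hu]; exact u.inv_mul
      have h9 : (((u⁻¹ : Aˣ) : A) : K) * x⁻¹ = 1 := by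
        have := congrArg (fun a : A => (a : K)) h8
        simpa using this
      have h10 : x = (((u⁻¹ : Aˣ) : A) : K) := by
        calc x = ((((u⁻¹ : Aˣ) : A) : K) * x⁻¹) * x := by rw [h9, one_mul]
          _ = (((u⁻¹ : Aˣ) : A) : K) * (x⁻¹ * x) := by ring
          _ = (((u⁻¹ : Aˣ) : A) : K) := by rw [inv_mul_cancel₀ hx0, mul_one]
      rw [h10]
      exact ((u⁻¹ : Aˣ) : A).2
    have hsurj : Function.Surjective φ := ZMod.ringHom_surjective φ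
    have hmax : (RingHom.ker φ).IsMaximal := RingHom.ker_isMaximal_of_surjective φ hsurj
    have hker : RingHom.ker φ = IsLocalRing.maximalIdeal A := IsLocalRing.eq_maximalIdeal hmax
    apply hne
    rw [← hker] at hloc
    exact (RingHom.mem_ker).1 hloc
  have hfin : φ ⟨y * x⁻¹, hw⟩ ^ 2 + 1 = φ ⟨x⁻¹, hxi⟩ ^ 2 := by
    rw [← map_pow, ← map_pow, ← map_one φ, ← map_add]
    congr 1
    apply Subtype.ext
    simpa using hsq
  rw [hnu] at hfin
  revert hfin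
  generalize φ ⟨y * x⁻¹, hw⟩ = t
  revert t
  decide

/-- the embedding of pairs of integral elements into the plane -/
noncomputable def jmap (F : Subfield ℝ) (A : ValuationSubring F) : (A × A) →+ ℂ where
  toFun p := ⟨((p.1 : F) : ℝ), ((p.2 : F) : ℝ)⟩
  map_zero' := by
    apply Complex.ext <;> simp
  map_add' p q := by
    apply Complex.ext <;> simp

theorem jmap_inj (F : Subfield ℝ) (A : ValuationSubring F) : Function.Injective (jmap F A) := by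
  intro p q h
  have h1 : ((p.1 : F) : ℝ) = ((q.1 : F) : ℝ) := congrArg Complex.re h
  have h2 : ((p.2 : F) : ℝ) = ((q.2 : F) : ℝ) := congrArg Complex.im h
  apply Prod.ext
  · exact Subtype.ext (Subtype.ext h1)
  · exact Subtype.ext (Subtype.ext h2)

theorem arith3 : ∀ t a b : ZMod 3, a ≠ 0 → b ≠ 0 →
    ¬ (decide (t + a = 0) = decide (t = 0) ∧ decide (t + b = 0) = decide (t = 0) ∧
      decide (t + a + b = 0) = decide (t = 0)) := by decide

theorem norm3 : ∀ a b : ZMod 3, a ^ 2 + b ^ 2 = 1 → a - b ≠ 0 ∧ - b - a ≠ 0 := by decide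

theorem barrier (F : Subfield ℝ) (A : ValuationSubring F) (φ : A →+* ZMod 3) :
    ∃ c : ℂ → Bool, ∀ m n : ℕ, ¬ 3 ∣ m → ¬ 3 ∣ n → ∀ z u : ℂ, ‖u‖ = 1 →
      u.re ∈ F → u.im ∈ F →
      ¬ (c (z + m * u) = c z ∧ c (z + n * (Complex.I * u)) = c z ∧
        c (z + m * u + n * (Complex.I * u)) = c z) := by
  classical
  set S : AddSubgroup ℂ := (jmap F A).range with hS
  let e : (A × A) ≃+ S := AddMonoidHom.ofInjective (jmap_inj F A)
  let g : (A × A) →+ ZMod 3 :=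
    φ.toAddMonoidHom.comp (AddMonoidHom.fst A A) - φ.toAddMonoidHom.comp (AddMonoidHom.snd A A)
  let f : S →+ ZMod 3 := g.comp e.symm.toAddMonoidHom
  let r : ℂ → ℂ := fun z => (QuotientAddGroup.mk z : ℂ ⧸ S).out
  have hr1 : ∀ z, z - r z ∈ S := by
    intro z
    obtain ⟨h, hh⟩ := QuotientAddGroup.mk_out_eq_add S z
    have h1 : z - r z = -(h : ℂ) := by
      show z - (QuotientAddGroup.mk z : ℂ ⧸ S).out = _
      rw [hh]; ring
    rw [h1]
    exact S.neg_mem h.2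
  have hr2 : ∀ z s, s ∈ S → r (z + s) = r z := by
    intro z s hs
    have h1 : (QuotientAddGroup.mk (z + s) : ℂ ⧸ S) = QuotientAddGroup.mk z := by
      rw [QuotientAddGroup.eq]
      have h2 : -(z + s) + z = -s := by ring
      rw [h2]
      exact S.neg_mem hs
    show (QuotientAddGroup.mk (z + s) : ℂ ⧸ S).out = (QuotientAddGroup.mk z : ℂ ⧸ S).out
    rw [h1]
  refine ⟨fun z => decide (f ⟨z - r z, hr1 z⟩ = 0), ?_⟩
  intro m n hm hn z u hu hre him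
  have hnorm : u.re ^ 2 + u.im ^ 2 = 1 := by
    have h1 := Complex.sq_norm u
    rw [hu, Complex.normSq_apply] at h1
    nlinarith [h1]
  have hnF : (⟨u.re, hre⟩ : F) ^ 2 + (⟨u.im, him⟩ : F) ^ 2 = 1 := by
    apply Subtype.ext
    simpa using hnorm
  have hnF' : (⟨u.im, him⟩ : F) ^ 2 + (⟨u.re, hre⟩ : F) ^ 2 = 1 := by
    rw [add_comm]; exact hnF
  have ha : (⟨u.re, hre⟩ : F) ∈ A := mem_of_norm_one A φ hnF
  have hb : (⟨u.im, him⟩ : F) ∈ A := mem_of_norm_one A φ hnF'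
  let a : A := ⟨⟨u.re, hre⟩, ha⟩
  let b : A := ⟨⟨u.im, him⟩, hb⟩
  have hφ : φ a ^ 2 + φ b ^ 2 = 1 := by
    rw [← map_pow, ← map_pow, ← map_one φ, ← map_add]
    congr 1
    apply Subtype.ext
    exact hnF
  obtain ⟨hα, hβ⟩ := norm3 _ _ hφ
  have hu1 : jmap F A (a, b) = u := by
    apply Complex.ext <;> rfl
  have hu2 : jmap F A (-b, a) = Complex.I * u := by
    apply Complex.ext
    · simp [jmap, a, b]
    · simp [jmap, a, b]
  have key : ∀ (p : A × A) (s : ℂ) (hs : s ∈ S), jmap F A p = s → f ⟨s, hs⟩ = φ p.1 - φ p.2 := by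
    intro p s hs hp
    have h1 : (⟨s, hs⟩ : S) = e p := Subtype.ext hp.symm
    show g (e.symm ⟨s, hs⟩) = _
    rw [h1, AddEquiv.symm_apply_apply]
    rfl
  have hmu : (m : ℂ) * u ∈ S := ⟨(m • a, m • b), by
    rw [← hu1, ← nsmul_eq_mul, ← map_nsmul]; rfl⟩
  have hnu : (n : ℂ) * (Complex.I * u) ∈ S := ⟨(n • (-b), n • a), by
    rw [← hu2, ← nsmul_eq_mul, ← map_nsmul]; rfl⟩
  have hfm : f ⟨(m : ℂ) * u, hmu⟩ = (m : ZMod 3) * (φ a - φ b) := by
    rw [key (m • a, m • b) _ hmu (by rw [← hu1, ← nsmul_eq_mul, ← map_nsmul]; rfl)]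
    simp only [nsmul_eq_mul, map_mul, map_natCast]
    ring
  have hfn : f ⟨(n : ℂ) * (Complex.I * u), hnu⟩ = (n : ZMod 3) * (- φ b - φ a) := by
    rw [key (n • (-b), n • a) _ hnu (by rw [← hu2, ← nsmul_eq_mul, ← map_nsmul]; rfl)]
    simp only [nsmul_eq_mul, map_mul, map_natCast, map_neg]
    ring
  have hmz : (m : ZMod 3) ≠ 0 := by
    intro h0
    exact hm ((ZMod.natCast_eq_zero_iff m 3).1 h0)
  have hnz : (n : ZMod 3) ≠ 0 := by
    intro h0
    exact hn ((ZMod.natCast_eq_zero_iff n 3).1 h0)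
  have hfact : Fact (Nat.Prime 3) := ⟨Nat.prime_three⟩
  have hα' : f ⟨(m : ℂ) * u, hmu⟩ ≠ 0 := by
    rw [hfm]; exact mul_ne_zero hmz hα
  have hβ' : f ⟨(n : ℂ) * (Complex.I * u), hnu⟩ ≠ 0 := by
    rw [hfn]; exact mul_ne_zero hnz hβ
  have hadd : ∀ (z s : ℂ) (hs : s ∈ S),
      f ⟨(z + s) - r (z + s), hr1 (z + s)⟩ = f ⟨z - r z, hr1 z⟩ + f ⟨s, hs⟩ := by
    intro z s hs
    rw [← map_add]
    congr 1
    apply Subtype.ext
    show (z + s) - r (z + s) = (z - r z) + s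
    rw [hr2 z s hs]
    ring
  have h3 := arith3 (f ⟨z - r z, hr1 z⟩) _ _ hα' hβ'
  intro hc
  apply h3
  have e1 := hadd z _ hmu
  have e2 := hadd z _ hnu
  have e3 := hadd (z + m * u) _ hnu
  rw [e1] at e3
  obtain ⟨c1, c2, c3⟩ := hc
  simp only at c1 c2 c3
  rw [e1] at c1
  rw [e2] at c2
  rw [e3] at c3
  exact ⟨c1, c2, c3⟩

end Pool.Agent.Helper8.P1
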