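import Pool.Agent.Helper8.P1.Cases

set_option autoImplicit false

namespace Pool.Agent.Helper8.P1

instance fact3 : Fact (Nat.Prime 3) := ⟨Nat.prime_three⟩

noncomputable def red3 : zs 3 →+* ZMod 3 := (PadicInt.toZMod (p := 3)).comp (toP 3)

def C3 (δ : ZMod 3) (t : ZMod 3 × ZMod 3 × ZMod 3 × ZMod 3) : Bool :=
  decide (t.1 + δ * t.2.1 - t.2.2.1 - δ * t.2.2.2 = 0)

theorem lin3 : ∀ p q r s : ZMod 3, ∀ δ : ZMod 3, δ ≠ 2 →
    p ^ 2 + r ^ 2 + δ * (q ^ 2 + s ^ 2) = 1 → p * q + r * s = 0 →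
    p + δ * q - r - δ * s ≠ 0 ∧ - r + δ * (- s) - p - δ * q ≠ 0 := by decide

theorem nm3 : ∀ t a b : ZMod 3, a ≠ 0 → b ≠ 0 →
    ¬ (decide (t + a = 0) = decide (t = 0) ∧ decide (t + b = 0) = decide (t = 0) ∧
      decide (t + a + b = 0) = decide (t = 0)) := by decide

theorem good3 (δ : ZMod 3) (x y : ZMod 3 × ZMod 3 × ZMod 3 × ZMod 3)
    (hx : x.1 + δ * x.2.1 - x.2.2.1 - δ * x.2.2.2 ≠ 0)
    (hy : y.1 + δ * y.2.1 - y.2.2.1 - δ * y.2.2.2 ≠ 0) : Good (C3 δ) x y := by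
  intro t
  have e : ∀ u w : ZMod 3 × ZMod 3 × ZMod 3 × ZMod 3,
      (u + w).1 + δ * (u + w).2.1 - (u + w).2.2.1 - δ * (u + w).2.2.2 =
      (u.1 + δ * u.2.1 - u.2.2.1 - δ * u.2.2.2) + (w.1 + δ * w.2.1 - w.2.2.1 - δ * w.2.2.2) := by
    intro u w
    simp only [Prod.fst_add, Prod.snd_add]
    ring
  have hx2 : (x.1 + δ * x.2.1 - x.2.2.1 - δ * x.2.2.2) + (x.1 + δ * x.2.1 - x.2.2.1 - δ * x.2.2.2) ≠ 0 := by
    revert hx
    generalize x.1 + δ * x.2.1 - x.2.2.1 - δ * x.2.2.2 = a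
    revert a
    decide
  constructor
  · intro h
    simp only [C3, e] at h
    exact nm3 _ _ _ hx hy h
  · intro h
    simp only [C3, two_nsmul, e] at h
    have h2 := nm3 (t.1 + δ * t.2.1 - t.2.2.1 - δ * t.2.2.2) _ _ hx2 hy
    apply h2
    refine ⟨?_, h.2.1, ?_⟩
    · rw [← h.1]
    · rw [← h.2.2]

theorem three (d : ℕ) (hd : Irrational (√(d : ℝ)))
    (h3 : (∃ e : ℕ, d = 3 * e + 1) ∨ (∃ e : ℕ, d = 3 * e ∧ ¬ 3 ∣ e)) :
    ∃ c : ℂ → Bool, ∀ m : ℕ, (m = 1 ∨ m = 2) → ∀ v : Q4, ‖emb d v‖ = 1 → ∀ z : ℂ,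
      ¬ (c (z + m * emb d v) = c z ∧ c (z + Complex.I * emb d v) = c z ∧
        c (z + m * emb d v + Complex.I * emb d v) = c z) := by
  refine case_lemma hd (zs 3) red3 (AddMonoidHom.id Q4) (C3 (d : ZMod 3)) ?_
  intro v hv
  obtain ⟨N, x1, x2, y1, y2, hN, h1, h2, h4, h5, hprim⟩ := prim 3 (by norm_num) v
  obtain ⟨g1, g2⟩ := int_eq hv h1 h2 h4 h5
  have hN3 : ¬ 3 ∣ N := by
    intro hdvd
    apply hprim hdvd
    obtain ⟨n, hn⟩ := hdvd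
    rcases h3 with ⟨e, he⟩ | ⟨e, he, hne⟩
    · rw [he, hn] at g1
      push_cast at g1
      exact arith31 e x1 x2 y1 y2 n g1 g2
    · rw [he, hn] at g1
      push_cast at g1
      exact arith30 e x1 x2 y1 y2 n (by
        intro h
        exact hne (by exact_mod_cast h)) g1
  have hNQ : (N : ℚ) ≠ 0 := by exact_mod_cast hN.ne'
  have aux : ∀ (a : ℚ) (x : ℤ), a * N = x → a ∈ zs 3 := by
    intro a x ha
    have : a = (x : ℚ) / (N : ℚ) := by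
      rw [← ha]; field_simp
    rw [this]
    exact div_mem 3 x N hN3
  let w : zs 3 × zs 3 × zs 3 × zs 3 :=
    (⟨v.1, aux _ _ h1⟩, ⟨v.2.1, aux _ _ h2⟩, ⟨v.2.2.1, aux _ _ h4⟩, ⟨v.2.2.2, aux _ _ h5⟩)
  have hw : (AddMonoidHom.id Q4) v = up (zs 3) w := rfl
  refine ⟨w, rt w, hw, rfl, ?_⟩
  obtain ⟨u1, u2⟩ := hv
  have r1 : (red3 w.1) ^ 2 + (red3 w.2.2.1) ^ 2 +
      (d : ZMod 3) * ((red3 w.2.1) ^ 2 + (red3 w.2.2.2) ^ 2) = 1 := by
    have : w.1 ^ 2 + w.2.2.1 ^ 2 + (d : zs 3) * (w.2.1 ^ 2 + w.2.2.2 ^ 2) = 1 := by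
      apply Subtype.ext
      push_cast
      exact u1
    have h := congrArg red3 this
    simpa using h
  have r2 : (red3 w.1) * (red3 w.2.1) + (red3 w.2.2.1) * (red3 w.2.2.2) = 0 := by
    have : w.1 * w.2.1 + w.2.2.1 * w.2.2.2 = 0 := by
      apply Subtype.ext
      push_cast
      exact u2
    have h := congrArg red3 this
    simpa using h
  have hδ : (d : ZMod 3) ≠ 2 := by
    rcases h3 with ⟨e, he⟩ | ⟨e, he, _⟩
    · rw [he]; push_cast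
      have h30 : (3 : ZMod 3) = 0 := by decide
      rw [h30]; simp; decide
    · rw [he]; push_cast
      have h30 : (3 : ZMod 3) = 0 := by decide
      rw [h30]; simp; decide
  obtain ⟨l1, l2⟩ := lin3 _ _ _ _ _ hδ r1 r2
  apply good3
  · exact l1
  · show red3 (-w.2.2.1) + (d : ZMod 3) * red3 (-w.2.2.2) - red3 w.1 - (d : ZMod 3) * red3 w.2.1 ≠ 0
    rw [map_neg, map_neg]
    exact l2

end Pool.Agent.Helper8.P1
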