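import Pool.Agent.Helper8.P1.Cases

set_option autoImplicit false

namespace Pool.Agent.Helper8.P1

noncomputable def red4 : zs 2 →+* ZMod 4 :=
  ((ZMod.castHom (by norm_num : 4 ∣ 2 ^ 2) (ZMod 4)).comp (PadicInt.toZModPow (p := 2) 2)).comp (toP 2)

abbrev R4 : Type := ZMod 4 × ZMod 4 × ZMod 4 × ZMod 4

def ev (x : ZMod 4) : Bool := decide (x.val % 2 = 0)

theorem ev_add : ∀ x y : ZMod 4, ev y = false → ev (x + y) = !(ev x) := by decide

theorem good_par (l : R4 →+ ZMod 4) (x y : R4) (hx : ev (l x) = false) (hy : ev (l y) = false) :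
    Good (fun t => ev (l t)) x y := by
  intro t
  constructor
  · rintro ⟨h, _, _⟩
    simp only [map_add, ev_add _ _ hx] at h
    cases h1 : ev (l t) <;> rw [h1] at h <;> simp at h
  · rintro ⟨_, h, _⟩
    simp only [map_add, ev_add _ _ hy] at h
    cases h1 : ev (l t) <;> rw [h1] at h <;> simp at h

/-- `t ↦ p + r` -/
def l1 : R4 →+ ZMod 4 where
  toFun t := t.1 + t.2.2.1
  map_zero' := by simp
  map_add' x y := by simp only [Prod.fst_add, Prod.snd_add]; ring

/-- `t ↦ p + r + s` -/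
def l2 : R4 →+ ZMod 4 where
  toFun t := t.1 + t.2.2.1 + t.2.2.2
  map_zero' := by simp
  map_add' x y := by simp only [Prod.fst_add, Prod.snd_add]; ring

theorem par21 : ∀ e p q r s : ZMod 4, p ^ 2 + r ^ 2 + e * (q ^ 2 + s ^ 2) = 1 →
    2 * (p * q + r * s) + (q ^ 2 + s ^ 2) = 0 → ev (p + r) = false ∧ ev (- r + p) = false := by
  decide +kernel

theorem par22 : ∀ e p q r s : ZMod 4, 2 * p ^ 2 + 2 * r ^ 2 + (2 * e + 1) * (q ^ 2 + s ^ 2) = 2 →
    p * q + r * s = 0 → ev (p + r + s) = false ∧ ev (- r + p + q) = false := by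
  decide +kernel

def T23 : ℕ := 16916457116043121980

def C23 (t : R4) : Bool :=
  T23.testBit ((t.1 - t.2.2.1).val + 4 * (t.1.val % 2) + 8 * (t.2.1 - t.2.2.2).val +
    32 * (t.2.1.val % 2))

/-- the index class of an element -/
def cls (t : R4) : ℕ := (t.1 - t.2.2.1).val + 4 * (t.1.val % 2) + 8 * (t.2.1 - t.2.2.2).val +
    32 * (t.2.1.val % 2)

end Pool.Agent.Helper8.P1
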