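import Pool.Agent.Helper8.P1.Two

set_option autoImplicit false

namespace Pool.Agent.Helper8.P1

def chk (x y t : R4) : Bool :=
  let c := C23 t
  (C23 (t + y) != c) ||
    (((C23 (t + x) != c) || (C23 (t + x + y) != c)) &&
      ((C23 (t + (x + x)) != c) || (C23 (t + (x + x) + y) != c)))

set_option maxRecDepth 100000 in
theorem chk23 : ∀ p q r s : ZMod 4,
    (p ^ 2 + p * q + r ^ 2 + r * s + (q ^ 2 + s ^ 2) = 1 ∨
      p ^ 2 + p * q + r ^ 2 + r * s + 3 * (q ^ 2 + s ^ 2) = 1) → r * q = p * s →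
    ∀ a b c d : ZMod 4, chk (p, q, r, s) (-r, -s, p, q) (a, b, c, d) = true := by
  decide +kernel

theorem good_of_chk (x y : R4) (h : ∀ t, chk x y t = true) : Good C23 x y := by
  intro t
  have h1 := h t
  unfold chk at h1
  constructor
  · rintro ⟨g1, g2, g3⟩
    rw [g1, g2, g3] at h1
    simp at h1
  · rw [two_nsmul]
    rintro ⟨g1, g2, g3⟩
    rw [g1, g2, g3] at h1
    simp at h1

end Pool.Agent.Helper8.P1
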